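import Pool.Agent.H14.PiId4

set_option autoImplicit false
set_option maxHeartbeats 800000
open Pool.Agent.H14.PiId Equiv

namespace Pool.Agent.Results.MP_f7573e_al.Counter

lemma l24 : (Finset.univ.val.map fun σ : Perm (Fin 4) =>
    (((Perm.sign σ : ℤˣ) : ℤ), σ 0, σ 1, σ 2, σ 3)) = (L24 : Multiset _) := by decide +kernel

lemma sum24 {A : Type} [AddCommMonoid A] (G : ℤ × Fin 4 × Fin 4 × Fin 4 × Fin 4 → A) :
    ∑ σ : Perm (Fin 4), G (((Perm.sign σ : ℤˣ) : ℤ), σ 0, σ 1, σ 2, σ 3) = (L24.map G).sum := by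
  rw [← Multiset.sum_coe, ← Multiset.map_coe, ← l24, Multiset.map_map]
  rfl

lemma cod5 : ∀ a b c d e : Fin 5, cod [a, b, c, d, e] = 6055 →
    a = 0 ∧ b = 1 ∧ c = 2 ∧ d = 3 ∧ e = 4 := by
  intro a b c d e h
  simp only [cod, Fin.ext_iff] at *
  refine ⟨?_, ?_, ?_, ?_, ?_⟩ <;> (simp; omega)

theorem result : ∃ (R : Type) (_ : NonUnitalRing R),
    (∀ r : Fin 4 → R, ∑ σ : Perm (Fin 4),
      (((Perm.sign σ : ℤˣ) : ℤ) • (r (σ 0) * r (σ 1) * r (σ 2) * r (σ 3)) -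
        (2 : ℤ) • (r (σ 0) * r (σ 1) * r (σ 0) * r (σ 2) * r (σ 3) +
          r (σ 0) * r (σ 1) * r (σ 2) * r (σ 2) * r (σ 3) +
          r (σ 0) * r (σ 1) * r (σ 2) * r (σ 3) * r (σ 1))) = 0) ∧
    ∀ α : Perm (Fin 5) → ℤ, (∃ σ, α σ = 1) → ¬ ∀ r : Fin 5 → R,
      ∑ σ : Perm (Fin 5), α σ • (r (σ 0) * r (σ 1) * r (σ 2) * r (σ 3) * r (σ 4)) = 0 := by
  refine ⟨RR, inferInstance, fun r => Subtype.ext ?_, ?_⟩
  · have h := RR_Z (r 0) (r 1) (r 2) (r 3)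
    rw [Z, ← sub_eq_zero] at h
    rw [sum24 (fun p => p.1 • (r p.2.1 * r p.2.2.1 * r p.2.2.2.1 * r p.2.2.2.2) -
      (2 : ℤ) • (r p.2.1 * r p.2.2.1 * r p.2.1 * r p.2.2.2.1 * r p.2.2.2.2 +
        r p.2.1 * r p.2.2.1 * r p.2.2.2.1 * r p.2.2.2.1 * r p.2.2.2.2 +
        r p.2.1 * r p.2.2.1 * r p.2.2.2.1 * r p.2.2.2.2 * r p.2.2.1)), ZeroMemClass.coe_zero, ← h]
    simp only [L24, List.map_cons, List.map_nil, List.sum_cons, List.sum_nil, Sf, Hf]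
    push_cast
    abel
  · rintro α ⟨σ, hσ⟩ h
    have h1 := congrArg Subtype.val (h fun i =>
      ⟨y [σ⁻¹ i], AddSubmonoid.subset_closure ⟨_, by simp, rfl⟩⟩)
    push_cast at h1
    have h2 : cc.mk' (∑ τ : Perm (Fin 5),
        α τ • x [σ⁻¹ (τ 0), σ⁻¹ (τ 1), σ⁻¹ (τ 2), σ⁻¹ (τ 3), σ⁻¹ (τ 4)]) = cc.mk' 0 := by
      rw [map_zero, ← h1, map_sum]
      refine Finset.sum_congr rfl fun τ _ => ?_
      simp only [map_zsmul, y, ← map_mul, ← x_app]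
      rfl
    have h3 := cc.eq.1 h2 1 1
    rw [one_mul, mul_one, one_mul, mul_one, map_zero, map_sum, Finset.sum_eq_single σ] at h3
    · rw [map_zsmul, La_x, y_five _ rfl, hσ] at h3
      simp only [Perm.coe_inv, symm_apply_apply] at h3
      revert h3
      decide
    · intro τ _ hτ
      rw [map_zsmul, La_x, y_five _ rfl, if_neg, Nat.cast_zero, smul_zero]
      intro h4
      obtain ⟨e0, e1, e2, e3, e4⟩ := cod5 _ _ _ _ _ h4
      refine hτ (Equiv.ext fun i => ?_)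
      rw [Perm.inv_eq_iff_eq] at e0 e1 e2 e3 e4
      fin_cases i
      exacts [e0, e1, e2, e3, e4]
    · simp

end Pool.Agent.Results.MP_f7573e_al.Counter
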